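import Pool.Agent.W388.TW.D1
import Pool.Agent.H385R2.Win

/-!
Real analysis of the smoothed sums over prime powers (task TW-Smooth of the project of helper388).
-/

set_option autoImplicit false

open Filter Topology Set MeasureTheory
open H385 (Rw)

namespace Pool.Agent.W261.TW


/-- `min(1, e^(L - log n))` -/
noncomputable def mm (L : ℝ) (n : ℕ) : ℝ := min 1 (Real.exp (L - Real.log n))

lemma mm_nonneg (L : ℝ) (n : ℕ) : 0 ≤ mm L n := le_min zero_le_one (Real.exp_pos _).le

lemma mm_mono {L M : ℝ} (h : L ≤ M) (n : ℕ) : mm L n ≤ mm M n := by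
  unfold mm
  apply min_le_min_left
  apply Real.exp_le_exp.2
  linarith

lemma exp_le_mm {u U : ℝ} (h : u ≤ U) (n : ℕ) : Real.exp (-|u - Real.log n|) ≤ mm U n := by
  unfold mm
  apply le_min
  · rw [← Real.exp_zero]
    apply Real.exp_le_exp.2
    have := abs_nonneg (u - Real.log n)
    linarith
  · apply Real.exp_le_exp.2
    have := neg_abs_le (u - Real.log n)
    linarith

/-- hypothesis on the weights -/
structure Wt (v : ℕ → ℝ) (C : ℝ) : Prop where
  nonneg : ∀ n, 0 ≤ v n
  bd : ∀ t : ℝ, 0 ≤ t → ∀ s : Finset ℕ, (∀ n ∈ s, Real.log n ≤ t) → ∑ n ∈ s, v n ≤ C * (t + 1)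

lemma Wt.C_nonneg {v : ℕ → ℝ} {C : ℝ} (hv : Wt v C) : 0 ≤ C := by
  have := hv.bd 0 le_rfl ∅ (by simp)
  simpa using this

/-- an absolute constant -/
noncomputable def S0 : ℝ := ∑' j : ℕ, ((j : ℝ) + 2) * Real.exp (-(j : ℝ))

lemma S0_summable : Summable (fun j : ℕ => ((j : ℝ) + 2) * Real.exp (-(j : ℝ))) := by
  have h1 := Real.summable_pow_mul_exp_neg_nat_mul 1 one_pos
  have h0 := Real.summable_pow_mul_exp_neg_nat_mul 0 one_pos
  have := h1.add (h0.mul_left 2)
  refine this.congr fun j => ?_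
  simp only [pow_one, pow_zero, one_mul, neg_mul]
  ring

lemma key {v : ℕ → ℝ} {C : ℝ} (hv : Wt v C) {L : ℝ} (hL : 0 ≤ L) (s : Finset ℕ) :
    ∑ n ∈ s, v n * mm L n ≤ C * S0 * (L + 1) := by
  have hC := hv.C_nonneg
  obtain ⟨J, hJ⟩ := exists_nat_gt (∑ n ∈ s, |Real.log n - L|)
  have hJ' : ∀ n ∈ s, Real.log n - L < J := by
    intro n hn
    calc Real.log n - L ≤ |Real.log n - L| := le_abs_self _
      _ ≤ ∑ n ∈ s, |Real.log n - L| :=
        Finset.single_le_sum (f := fun n : ℕ => |Real.log n - L|) (fun i _ => abs_nonneg _) hn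
      _ < J := hJ
  have h1 : ∀ n ∈ s, v n * mm L n ≤ ∑ j ∈ Finset.range (J + 1),
      (if Real.log n ≤ L + j + 1 then v n * Real.exp (-(j : ℝ)) else 0) := by
    intro n hn
    set j := ⌊Real.log n - L⌋₊ with hj
    have hjlt : Real.log n - L < j + 1 := Nat.lt_floor_add_one _
    have hjJ : j ∈ Finset.range (J + 1) := by
      rw [Finset.mem_range]
      have : j ≤ J := by
        rw [hj]
        apply Nat.floor_le_of_le
        exact (hJ' n hn).le
      omega
    have h2 : v n * mm L n ≤ (if Real.log n ≤ L + j + 1 then v n * Real.exp (-(j : ℝ)) else 0) := by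
      rw [if_pos (by linarith)]
      apply mul_le_mul_of_nonneg_left _ (hv.nonneg n)
      unfold mm
      rcases le_or_gt 0 (Real.log n - L) with h3 | h3
      · have h4 : (j : ℝ) ≤ Real.log n - L := Nat.floor_le h3
        apply (min_le_right _ _).trans
        apply Real.exp_le_exp.2
        linarith
      · have h4 : j = 0 := Nat.floor_of_nonpos h3.le
        rw [h4]
        simp
    refine h2.trans ?_
    apply Finset.single_le_sum (f := fun j : ℕ =>
      (if Real.log n ≤ L + j + 1 then v n * Real.exp (-(j : ℝ)) else 0)) _ hjJ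
    intro i _
    have := hv.nonneg n
    split_ifs <;> positivity
  calc ∑ n ∈ s, v n * mm L n ≤ ∑ n ∈ s, ∑ j ∈ Finset.range (J + 1),
      (if Real.log n ≤ L + j + 1 then v n * Real.exp (-(j : ℝ)) else 0) := Finset.sum_le_sum h1
    _ = ∑ j ∈ Finset.range (J + 1), ∑ n ∈ s,
      (if Real.log n ≤ L + j + 1 then v n * Real.exp (-(j : ℝ)) else 0) := Finset.sum_comm
    _ ≤ ∑ j ∈ Finset.range (J + 1), C * (L + 1) * (((j : ℝ) + 2) * Real.exp (-(j : ℝ))) := by
        apply Finset.sum_le_sum
        intro j _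
        rw [← Finset.sum_filter, ← Finset.sum_mul]
        have h3 := hv.bd (L + j + 1) (by positivity)
          (s.filter (fun n : ℕ => Real.log n ≤ L + j + 1)) (by
            intro n hn
            exact (Finset.mem_filter.1 hn).2)
        have h4 : C * (L + j + 1 + 1) ≤ C * (L + 1) * ((j : ℝ) + 2) := by
          have hj0 : (0 : ℝ) ≤ j := Nat.cast_nonneg j
          have : L + j + 1 + 1 ≤ (L + 1) * ((j : ℝ) + 2) := by nlinarith
          calc C * (L + j + 1 + 1) ≤ C * ((L + 1) * ((j : ℝ) + 2)) := by gcongr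
            _ = _ := by ring
        calc _ ≤ C * (L + 1) * ((j : ℝ) + 2) * Real.exp (-(j : ℝ)) := by
              apply mul_le_mul_of_nonneg_right (h3.trans h4) (Real.exp_pos _).le
          _ = _ := by ring
    _ = C * (L + 1) * ∑ j ∈ Finset.range (J + 1), (((j : ℝ) + 2) * Real.exp (-(j : ℝ))) := by
        rw [← Finset.mul_sum]
    _ ≤ C * (L + 1) * S0 := by
        apply mul_le_mul_of_nonneg_left _ (by positivity)
        exact S0_summable.sum_le_tsum _ (fun j _ => by positivity)
    _ = C * S0 * (L + 1) := by ring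

lemma summ_mm {v : ℕ → ℝ} {C : ℝ} (hv : Wt v C) {L : ℝ} (hL : 0 ≤ L) :
    Summable (fun n => v n * mm L n) :=
  summable_of_sum_le (fun n => mul_nonneg (hv.nonneg n) (mm_nonneg L n)) (fun s => key hv hL s)

lemma tsum_mm {v : ℕ → ℝ} {C : ℝ} (hv : Wt v C) {L : ℝ} (hL : 0 ≤ L) :
    ∑' n, v n * mm L n ≤ C * S0 * (L + 1) :=
  (summ_mm hv hL).tsum_le_of_sum_le (fun s => key hv hL s)

lemma dom {v : ℕ → ℝ} {C : ℝ} (hv : Wt v C) (F : ℕ → ℝ → ℝ) (hc : ∀ n, Continuous (F n))
    (h0 : ∀ n u, 0 ≤ F n u)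
    (hd : ∀ U : ℝ, 0 ≤ U → ∃ A : ℝ, ∀ n, ∀ u : ℝ, u ≤ U → F n u ≤ A * (v n * mm U n)) :
    (∀ u, Summable (fun n => F n u)) ∧ Continuous (fun u => ∑' n, F n u) := by
  constructor
  · intro u
    obtain ⟨A, hA⟩ := hd (max u 0) (le_max_right _ _)
    exact Summable.of_nonneg_of_le (fun n => h0 n u) (fun n => hA n u (le_max_left _ _))
      ((summ_mm hv (le_max_right _ _)).mul_left A)
  · rw [continuous_iff_continuousAt]
    intro u
    obtain ⟨A, hA⟩ := hd (max (u + 1) 0) (le_max_right _ _)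
    have h1 : ContinuousOn (fun u => ∑' n, F n u) (Set.Iio (u + 1)) := by
      apply continuousOn_tsum (fun n => (hc n).continuousOn)
        ((summ_mm hv (le_max_right (u + 1) 0)).mul_left A)
      intro n x hx
      rw [Real.norm_of_nonneg (h0 n x)]
      exact hA n x (le_trans (le_of_lt hx) (le_max_left _ _))
    exact h1.continuousAt (Iio_mem_nhds (by linarith))

/-- exponentially smoothed sum -/
noncomputable def EE (v : ℕ → ℝ) (u : ℝ) : ℝ := ∑' n, v n * Real.exp (-|u - Real.log n|)

lemma EE_dom {v : ℕ → ℝ} {C : ℝ} (hv : Wt v C) :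
    (∀ u, Summable (fun n => v n * Real.exp (-|u - Real.log n|))) ∧ Continuous (EE v) := by
  apply dom hv (fun n u => v n * Real.exp (-|u - Real.log n|))
  · intro n; fun_prop
  · intro n u
    have := hv.nonneg n
    positivity
  · intro U hU
    refine ⟨1, fun n u hu => ?_⟩
    rw [one_mul]
    exact mul_le_mul_of_nonneg_left (exp_le_mm hu n) (hv.nonneg n)

lemma EE_le {v : ℕ → ℝ} {C : ℝ} (hv : Wt v C) {u : ℝ} (hu : 0 ≤ u) :
    EE v u ≤ C * S0 * (u + 1) := by
  refine le_trans ?_ (tsum_mm hv hu)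
  exact Summable.tsum_le_tsum (fun n => mul_le_mul_of_nonneg_left (exp_le_mm le_rfl n)
    (hv.nonneg n)) ((EE_dom hv).1 u) (summ_mm hv hu)

lemma EE_nonneg {v : ℕ → ℝ} {C : ℝ} (hv : Wt v C) (u : ℝ) : 0 ≤ EE v u :=
  tsum_nonneg fun n => mul_nonneg (hv.nonneg n) (Real.exp_pos _).le

lemma int_exp_le (L t : ℝ) (hL : 0 ≤ L) :
    ∫ u in (0 : ℝ)..L, Real.exp (-|u - t|) ≤ 2 * min 1 (Real.exp (L - t)) := by
  have hcont : Continuous fun u : ℝ => Real.exp (-|u - t|) := by fun_prop
  have hii : ∀ a b : ℝ, IntervalIntegrable (fun u : ℝ => Real.exp (-|u - t|)) volume a b :=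
    fun a b => hcont.intervalIntegrable a b
  -- increasing part
  have hinc : ∀ a b : ℝ, a ≤ b → ∫ u in a..b, Real.exp (-|u - t|) ≤ Real.exp (b - t) := by
    intro a b hab
    calc ∫ u in a..b, Real.exp (-|u - t|) ≤ ∫ u in a..b, Real.exp (u - t) := by
          apply intervalIntegral.integral_mono_on hab (hii a b)
          · exact (by fun_prop : Continuous fun u : ℝ => Real.exp (u - t)).intervalIntegrable _ _
          · intro u _
            apply Real.exp_le_exp.2
            have := neg_abs_le (u - t)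
            linarith
      _ = Real.exp (b - t) - Real.exp (a - t) := by
          have := intervalIntegral.integral_eq_sub_of_hasDerivAt
            (f := fun u : ℝ => Real.exp (u - t)) (f' := fun u : ℝ => Real.exp (u - t))
            (a := a) (b := b) (fun x _ => by
              have := ((hasDerivAt_id x).sub_const t).exp
              simpa using this)
            ((by fun_prop : Continuous fun u : ℝ => Real.exp (u - t)).intervalIntegrable _ _)
          exact this
      _ ≤ Real.exp (b - t) := by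
          have := Real.exp_pos (a - t)
          linarith
  have hdec : ∀ a b : ℝ, a ≤ b → ∫ u in a..b, Real.exp (-|u - t|) ≤ Real.exp (t - a) := by
    intro a b hab
    calc ∫ u in a..b, Real.exp (-|u - t|) ≤ ∫ u in a..b, Real.exp (t - u) := by
          apply intervalIntegral.integral_mono_on hab (hii a b)
          · exact (by fun_prop : Continuous fun u : ℝ => Real.exp (t - u)).intervalIntegrable _ _
          · intro u _
            apply Real.exp_le_exp.2
            have := le_abs_self (u - t)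
            linarith
      _ = Real.exp (t - a) - Real.exp (t - b) := by
          have := intervalIntegral.integral_eq_sub_of_hasDerivAt
            (f := fun u : ℝ => -Real.exp (t - u)) (f' := fun u : ℝ => Real.exp (t - u))
            (a := a) (b := b) (fun x _ => by
              have := (((hasDerivAt_id x).const_sub t).exp).neg
              exact this.congr_deriv (by simp))
            ((by fun_prop : Continuous fun u : ℝ => Real.exp (t - u)).intervalIntegrable _ _)
          rw [this]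
          ring
      _ ≤ Real.exp (t - a) := by
          have := Real.exp_pos (t - b)
          linarith
  rcases le_or_gt L t with h | h
  · have h1 := hinc 0 L hL
    have h2 : Real.exp (L - t) ≤ 1 := by
      rw [← Real.exp_zero]
      apply Real.exp_le_exp.2
      linarith
    rw [min_eq_right h2]
    have := Real.exp_pos (L - t)
    linarith
  · have h2 : 1 ≤ Real.exp (L - t) := by
      rw [← Real.exp_zero]
      apply Real.exp_le_exp.2
      linarith
    rw [min_eq_left h2, mul_one]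
    rcases le_or_gt 0 t with h3 | h3
    · rw [← intervalIntegral.integral_add_adjacent_intervals (hii 0 t) (hii t L)]
      have h4 := hinc 0 t h3
      have h5 := hdec t L h.le
      rw [sub_self, Real.exp_zero] at h4 h5
      linarith
    · have h4 := hdec 0 L hL
      have h5 : Real.exp (t - 0) ≤ 1 := by
        rw [← Real.exp_zero]
        apply Real.exp_le_exp.2
        linarith
      linarith

lemma int_EE_le {v : ℕ → ℝ} {C : ℝ} (hv : Wt v C) {L : ℝ} (hL : 0 ≤ L) :
    ∫ u in (0 : ℝ)..L, EE v u ≤ 2 * (C * S0 * (L + 1)) := by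
  have hb : ∀ n, ∫ u in (0 : ℝ)..L, v n * Real.exp (-|u - Real.log n|) ≤ 2 * (v n * mm L n) := by
    intro n
    rw [intervalIntegral.integral_const_mul]
    have := int_exp_le L (Real.log n) hL
    have h0 := hv.nonneg n
    calc _ ≤ v n * (2 * min 1 (Real.exp (L - Real.log n))) := by gcongr
      _ = _ := by unfold mm; ring
  have hpos : ∀ n, ∀ u : ℝ, 0 ≤ v n * Real.exp (-|u - Real.log n|) := fun n u =>
    mul_nonneg (hv.nonneg n) (Real.exp_pos _).le
  have hnn : ∀ n, 0 ≤ ∫ u in (0 : ℝ)..L, v n * Real.exp (-|u - Real.log n|) := by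
    intro n
    apply intervalIntegral.integral_nonneg hL
    intro u _
    exact hpos n u
  have hsum : Summable (fun n => ∫ u in (0 : ℝ)..L, v n * Real.exp (-|u - Real.log n|)) :=
    Summable.of_nonneg_of_le hnn hb ((summ_mm hv hL).mul_left 2)
  have hex : HasSum (fun n => ∫ u in (0 : ℝ)..L, v n * Real.exp (-|u - Real.log n|))
      (∫ u in (0 : ℝ)..L, EE v u) := by
    have h1 := MeasureTheory.hasSum_integral_of_summable_integral_norm
      (μ := volume.restrict (Set.Ioc 0 L))
      (F := fun (n : ℕ) (u : ℝ) => v n * Real.exp (-|u - Real.log n|)) (by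
        intro n
        have : Continuous fun u : ℝ => v n * Real.exp (-|u - Real.log n|) := by fun_prop
        exact (this.intervalIntegrable 0 L).1) (by
        refine hsum.congr fun n => ?_
        rw [intervalIntegral.integral_of_le hL]
        apply integral_congr_ae
        refine Filter.Eventually.of_forall fun u => ?_
        exact (Real.norm_of_nonneg (hpos n u)).symm)
    simp only [intervalIntegral.integral_of_le hL]
    exact h1
  rw [← hex.tsum_eq]
  calc _ ≤ ∑' n, 2 * (v n * mm L n) := hsum.tsum_le_tsum hb ((summ_mm hv hL).mul_left 2)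
    _ = 2 * ∑' n, v n * mm L n := tsum_mul_left
    _ ≤ _ := by
        have := tsum_mm hv hL
        linarith


/-! ### the weights `ArithmeticFunction.vonMangoldt(n) |c(n)|² / n` -/

/-- the weights -/
noncomputable def vv (c : ℕ → ℂ) (n : ℕ) : ℝ := ArithmeticFunction.vonMangoldt n * ‖c n‖ ^ 2 / n

lemma vv_nonneg (c : ℕ → ℂ) (n : ℕ) : 0 ≤ vv c n := by
  unfold vv
  have : 0 ≤ ArithmeticFunction.vonMangoldt n := ArithmeticFunction.vonMangoldt_nonneg
  positivity

lemma vv_zero (c : ℕ → ℂ) : vv c 0 = 0 := by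
  unfold vv
  simp

/-- the summatory function of the weights -/
noncomputable def VV (c : ℕ → ℂ) (x : ℝ) : ℝ := ∑ n ∈ Finset.Icc 1 ⌊x⌋₊, vv c n

lemma VV_nonneg (c : ℕ → ℂ) (x : ℝ) : 0 ≤ VV c x := Finset.sum_nonneg fun n _ => vv_nonneg c n

lemma VV_mono (c : ℕ → ℂ) {x y : ℝ} (h : x ≤ y) : VV c x ≤ VV c y := by
  apply Finset.sum_le_sum_of_subset_of_nonneg
  · exact Finset.Icc_subset_Icc le_rfl (Nat.floor_le_floor h)
  · intro n _ _
    exact vv_nonneg c n

lemma sum_le_VV (c : ℕ → ℂ) (t : ℝ) (s : Finset ℕ) (hs : ∀ n ∈ s, Real.log n ≤ t) :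
    ∑ n ∈ s, vv c n ≤ VV c (Real.exp t) := by
  rw [← Finset.sum_filter_add_sum_filter_not s (fun n => 1 ≤ n)]
  have h2 : ∑ n ∈ s.filter (fun n => ¬ 1 ≤ n), vv c n = 0 := by
    apply Finset.sum_eq_zero
    intro n hn
    rw [Finset.mem_filter] at hn
    have : n = 0 := by omega
    rw [this, vv_zero]
  rw [h2, add_zero]
  apply Finset.sum_le_sum_of_subset_of_nonneg
  · intro n hn
    rw [Finset.mem_filter] at hn
    rw [Finset.mem_Icc]
    refine ⟨hn.2, Nat.le_floor ?_⟩
    have hn0 : (0 : ℝ) < n := by exact_mod_cast hn.2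
    rw [← Real.log_le_iff_le_exp hn0]
    exact hs n hn.1
  · intro n _ _
    exact vv_nonneg c n

lemma VV_sub (c : ℕ → ℂ) {lo hi : ℝ} (h : lo ≤ hi) :
    ∑ n ∈ (Finset.Icc 1 ⌊Real.exp hi⌋₊).filter (fun n : ℕ => lo < Real.log n), vv c n =
      VV c (Real.exp hi) - VV c (Real.exp lo) := by
  have h1 : VV c (Real.exp lo) =
      ∑ n ∈ (Finset.Icc 1 ⌊Real.exp hi⌋₊).filter (fun n : ℕ => ¬ lo < Real.log n), vv c n := by
    unfold VV
    apply Finset.sum_congr _ (fun _ _ => rfl)
    ext n
    rw [Finset.mem_filter, Finset.mem_Icc, Finset.mem_Icc]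
    constructor
    · rintro ⟨h1, h2⟩
      have hn0 : (0 : ℝ) < n := by exact_mod_cast h1
      refine ⟨⟨h1, h2.trans (Nat.floor_le_floor (Real.exp_le_exp.2 h))⟩, ?_⟩
      rw [not_lt, Real.log_le_iff_le_exp hn0]
      exact (Nat.le_floor_iff (Real.exp_pos _).le).1 h2
    · rintro ⟨⟨h1, h2⟩, h3⟩
      have hn0 : (0 : ℝ) < n := by exact_mod_cast h1
      refine ⟨h1, Nat.le_floor ?_⟩
      rwa [not_lt, Real.log_le_iff_le_exp hn0] at h3
  rw [h1]
  unfold VV
  rw [← Finset.sum_filter_add_sum_filter_not (Finset.Icc 1 ⌊Real.exp hi⌋₊)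
    (fun n : ℕ => lo < Real.log n)]
  ring

lemma wt_of (c : ℕ → ℂ) (hc : W388.SelE c) : ∃ C : ℝ, Wt (vv c) C := by
  have h1 : ∀ᶠ x : ℝ in atTop, VV c x / Real.log x < 2 :=
    (show Tendsto (fun x : ℝ => VV c x / Real.log x) atTop (𝓝 1) from hc).eventually
      (gt_mem_nhds (by norm_num))
  obtain ⟨x₀, hx₀⟩ := (h1.and (eventually_gt_atTop (Real.exp 1))).exists_forall_of_atTop
  have hC1 := VV_nonneg c x₀
  refine ⟨2 + VV c x₀, vv_nonneg c, ?_⟩
  intro t ht s hs
  refine (sum_le_VV c t s hs).trans ?_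
  rcases le_or_gt x₀ (Real.exp t) with h | h
  · obtain ⟨h2, h3⟩ := hx₀ _ h
    rw [Real.log_exp] at h2
    have ht1 : 1 < t := Real.exp_lt_exp.1 h3
    rw [div_lt_iff₀ (by linarith)] at h2
    nlinarith
  · have := VV_mono c h.le
    nlinarith

lemma VV_lim (c : ℕ → ℂ) (hc : W388.SelE c) {a : ℝ} (ha : 0 < a) :
    Tendsto (fun L : ℝ => VV c (Real.exp (a * L)) / L) atTop (𝓝 a) := by
  have h1 : Tendsto (fun x : ℝ => VV c x / Real.log x) atTop (𝓝 1) := hc
  have h2 : Tendsto (fun L : ℝ => Real.exp (a * L)) atTop atTop :=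
    Real.tendsto_exp_atTop.comp (tendsto_id.const_mul_atTop ha)
  have h3 := (h1.comp h2).mul_const a
  rw [one_mul] at h3
  refine h3.congr' ?_
  filter_upwards [eventually_gt_atTop 0] with L hL
  simp only [Function.comp_apply, Real.log_exp]
  field_simp

lemma VV_diff (c : ℕ → ℂ) (hc : W388.SelE c) {a b η : ℝ} (hb : 0 ≤ b) (hη : 0 < η) :
    ∀ᶠ L : ℝ in atTop, VV c (Real.exp ((b + η) * L)) - VV c (Real.exp ((a - η) * L)) ≤
      (b - a + 4 * η) * L := by
  have h1 : ∀ᶠ L : ℝ in atTop, VV c (Real.exp ((b + η) * L)) ≤ (b + 2 * η) * L := by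
    have := (VV_lim c hc (a := b + η) (by linarith)).eventually
      (gt_mem_nhds (show b + η < b + 2 * η by linarith))
    filter_upwards [this, eventually_gt_atTop 0] with L hL hL0
    rw [div_lt_iff₀ hL0] at hL
    exact hL.le
  have h2 : ∀ᶠ L : ℝ in atTop, (a - 2 * η) * L ≤ VV c (Real.exp ((a - η) * L)) := by
    rcases le_or_gt (a - η) 0 with h | h
    · filter_upwards [eventually_gt_atTop 0] with L hL0
      have := VV_nonneg c (Real.exp ((a - η) * L))
      nlinarith
    · have := (VV_lim c hc (a := a - η) h).eventually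
        (lt_mem_nhds (show a - 2 * η < a - η by linarith))
      filter_upwards [this, eventually_gt_atTop 0] with L hL hL0
      rw [lt_div_iff₀ hL0] at hL
      exact hL.le
  filter_upwards [h1, h2] with L h3 h4
  linarith

/-! ### Gaussian kernels -/

lemma gauss_dom {b : ℝ} (hb : 0 < b) (M x : ℝ) :
    Real.exp (-(b * x ^ 2)) ≤ Real.exp (M ^ 2 / (4 * b)) * Real.exp (-(M * |x|)) := by
  rw [← Real.exp_add]
  apply Real.exp_le_exp.2
  have h1 : M ^ 2 / (4 * b) + -(M * |x|) + b * x ^ 2 = b * (|x| - M / (2 * b)) ^ 2 := by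
    have : x ^ 2 = |x| ^ 2 := (sq_abs x).symm
    rw [this]
    field_simp
    ring
  have h2 : 0 ≤ b * (|x| - M / (2 * b)) ^ 2 := by positivity
  linarith

lemma wu_term (c : ℕ → ℂ) (n : ℕ) (u : ℝ) :
    vv c n * Real.exp (-(u - Real.log n) ^ 2 / 4) ≤
      Real.exp 1 * (vv c n * Real.exp (-|u - Real.log n|)) := by
  have h := gauss_dom (b := 1 / 4) (by norm_num) 1 (u - Real.log n)
  have h1 : Real.exp (-(u - Real.log n) ^ 2 / 4) ≤ Real.exp 1 * Real.exp (-|u - Real.log n|) := by
    convert h using 2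
    · ring_nf
    · norm_num
    · rw [one_mul]
  calc _ ≤ vv c n * (Real.exp 1 * Real.exp (-|u - Real.log n|)) :=
        mul_le_mul_of_nonneg_left h1 (vv_nonneg c n)
    _ = _ := by ring

lemma swu_term (c : ℕ → ℂ) {b : ℝ} (hb : 0 < b) (n : ℕ) {u U : ℝ} (hu : u ≤ U) (hU : 0 ≤ U) :
    ArithmeticFunction.vonMangoldt n ^ 2 * ‖c n‖ ^ 2 / n * Real.exp (-(b * (u - Real.log n) ^ 2)) ≤
      Real.exp (1 / b) * (U + 1) * (vv c n * Real.exp (-|u - Real.log n|)) := by
  have hl : ArithmeticFunction.vonMangoldt n ≤ Real.log n := ArithmeticFunction.vonMangoldt_le_log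
  have h0 : 0 ≤ ArithmeticFunction.vonMangoldt n := ArithmeticFunction.vonMangoldt_nonneg
  have h := gauss_dom hb 2 (u - Real.log n)
  set x := u - Real.log n with hx
  have h2 : (2 : ℝ) ^ 2 / (4 * b) = 1 / b := by
    field_simp
    norm_num
  rw [h2] at h
  have h3 : Real.log n ≤ (U + 1) * Real.exp |x| := by
    have h4 : |x| + 1 ≤ Real.exp |x| := Real.add_one_le_exp _
    have h5 : Real.log n ≤ U + |x| := by
      have := neg_abs_le x
      linarith
    have h6 : 0 ≤ |x| := abs_nonneg x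
    nlinarith
  have h4 : Real.exp |x| * Real.exp (-(2 * |x|)) = Real.exp (-|x|) := by
    rw [← Real.exp_add]
    congr 1
    ring
  have hv := vv_nonneg c n
  calc ArithmeticFunction.vonMangoldt n ^ 2 * ‖c n‖ ^ 2 / n * Real.exp (-(b * x ^ 2))
      = ArithmeticFunction.vonMangoldt n * (vv c n * Real.exp (-(b * x ^ 2))) := by unfold vv; ring
    _ ≤ ((U + 1) * Real.exp |x|) * (vv c n * (Real.exp (1 / b) * Real.exp (-(2 * |x|)))) := by
        apply mul_le_mul (hl.trans h3) _ (by positivity) (by positivity)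
        exact mul_le_mul_of_nonneg_left h hv
    _ = Real.exp (1 / b) * (U + 1) * (vv c n * (Real.exp |x| * Real.exp (-(2 * |x|)))) := by ring
    _ = _ := by rw [h4]

lemma swu_nonneg_term (c : ℕ → ℂ) (b : ℝ) (n : ℕ) (u : ℝ) :
    0 ≤ ArithmeticFunction.vonMangoldt n ^ 2 * ‖c n‖ ^ 2 / n * Real.exp (-(b * (u - Real.log n) ^ 2)) := by
  have h0 : 0 ≤ ArithmeticFunction.vonMangoldt n := ArithmeticFunction.vonMangoldt_nonneg
  positivity

lemma wu_dom (c : ℕ → ℂ) {C : ℝ} (hv : Wt (vv c) C) :
    (∀ u, Summable (fun n : ℕ => vv c n * Real.exp (-(u - Real.log n) ^ 2 / 4))) ∧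
      Continuous (W388.Wu c) := by
  apply dom hv (fun n u => vv c n * Real.exp (-(u - Real.log n) ^ 2 / 4))
  · intro n; fun_prop
  · intro n u
    have := vv_nonneg c n
    positivity
  · intro U hU
    refine ⟨Real.exp 1, fun n u hu => (wu_term c n u).trans ?_⟩
    apply mul_le_mul_of_nonneg_left _ (Real.exp_pos _).le
    exact mul_le_mul_of_nonneg_left (exp_le_mm hu n) (vv_nonneg c n)

lemma swu_dom (c : ℕ → ℂ) {C : ℝ} (hv : Wt (vv c) C) {b : ℝ} (hb : 0 < b) :
    (∀ u, Summable (fun n : ℕ => ArithmeticFunction.vonMangoldt n ^ 2 * ‖c n‖ ^ 2 / n *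
      Real.exp (-(b * (u - Real.log n) ^ 2)))) ∧ Continuous (W388.SWu c b) := by
  apply dom hv (fun n u => ArithmeticFunction.vonMangoldt n ^ 2 * ‖c n‖ ^ 2 / n * Real.exp (-(b * (u - Real.log n) ^ 2)))
  · intro n; fun_prop
  · exact swu_nonneg_term c b
  · intro U hU
    refine ⟨Real.exp (1 / b) * (U + 1), fun n u hu => (swu_term c hb n hu hU).trans ?_⟩
    apply mul_le_mul_of_nonneg_left _ (by positivity)
    exact mul_le_mul_of_nonneg_left (exp_le_mm hu n) (vv_nonneg c n)

lemma wu_le (c : ℕ → ℂ) {C : ℝ} (hv : Wt (vv c) C) (u : ℝ) :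
    W388.Wu c u ≤ Real.exp 1 * EE (vv c) u := by
  unfold W388.Wu EE
  rw [← tsum_mul_left]
  exact Summable.tsum_le_tsum (fun n => wu_term c n u) ((wu_dom c hv).1 u)
    (((EE_dom hv).1 u).mul_left _)

lemma swu_le (c : ℕ → ℂ) {C : ℝ} (hv : Wt (vv c) C) {b : ℝ} (hb : 0 < b) {u U : ℝ} (hu : u ≤ U)
    (hU : 0 ≤ U) :
    W388.SWu c b u ≤ Real.exp (1 / b) * (U + 1) * EE (vv c) u := by
  unfold W388.SWu EE
  rw [← tsum_mul_left]
  exact Summable.tsum_le_tsum (fun n => swu_term c hb n hu hU) ((swu_dom c hv hb).1 u)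
    (((EE_dom hv).1 u).mul_left _)

lemma swu_nonneg (c : ℕ → ℂ) (b u : ℝ) : 0 ≤ W388.SWu c b u :=
  tsum_nonneg fun n => swu_nonneg_term c b n u

lemma gauss_int_le {p q : ℝ} (t : ℝ) (h : p ≤ q) :
    ∫ u in p..q, Real.exp (-(1 * (u - t) ^ 2)) ≤ Real.sqrt Real.pi := by
  have h1 : ∫ u : ℝ, Real.exp (-(1 * (u - t) ^ 2)) = Real.sqrt Real.pi := by
    have h2 := integral_sub_right_eq_self (μ := volume) (fun u : ℝ => Real.exp (-(1 * u ^ 2))) t
    rw [h2]
    have h3 := integral_gaussian 1
    rw [div_one] at h3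
    rw [← h3]
    congr 1
    ext x
    ring_nf
  have hi : Integrable (fun u : ℝ => Real.exp (-(1 * (u - t) ^ 2))) := by
    have h4 : Integrable (fun u : ℝ => Real.exp (-(1 * u ^ 2))) := by
      have := integrable_exp_neg_mul_sq (b := 1) one_pos
      refine this.congr (Filter.Eventually.of_forall fun x => ?_)
      simp
    exact h4.comp_sub_right t
  rw [intervalIntegral.integral_of_le h, ← h1]
  exact setIntegral_le_integral hi (Filter.Eventually.of_forall fun x => (Real.exp_pos _).le)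


lemma int_swu_half (c : ℕ → ℂ) {C : ℝ} (hv : Wt (vv c) C) {L : ℝ} (hL : 0 ≤ L) :
    ∫ u in (0 : ℝ)..L, W388.SWu c (1 / 2) u ≤ 2 * Real.exp 2 * (C * S0) * (L + 1) ^ 2 := by
  have h1 : ∫ u in (0 : ℝ)..L, W388.SWu c (1 / 2) u ≤
      ∫ u in (0 : ℝ)..L, Real.exp 2 * (L + 1) * EE (vv c) u := by
    apply intervalIntegral.integral_mono_on hL
    · exact (swu_dom c hv (by norm_num : (0 : ℝ) < 1 / 2)).2.intervalIntegrable _ _
    · exact ((EE_dom hv).2.const_mul _).intervalIntegrable _ _
    · intro u hu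
      have := swu_le c hv (by norm_num : (0 : ℝ) < 1 / 2) hu.2 hL
      norm_num at this
      exact this
  rw [intervalIntegral.integral_const_mul] at h1
  have h2 := int_EE_le hv hL
  calc _ ≤ _ := h1
    _ ≤ Real.exp 2 * (L + 1) * (2 * (C * S0 * (L + 1))) := by gcongr
    _ = _ := by ring

lemma block (c : ℕ → ℂ) (hc : W388.SelE c) {a b : ℝ} (ha : 0 ≤ a) (hab : a ≤ b) (hb1 : b ≤ 1)
    {ε : ℝ} (hε : 0 < ε) :
    ∀ᶠ L : ℝ in atTop, ∫ u in (a * L)..(b * L), W388.SWu c 1 u ≤
      Real.sqrt Real.pi * L ^ 2 * (b * (b - a) + ε) := by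
  obtain ⟨C, hv⟩ := wt_of c hc
  set K := C * S0 with hK
  have hb0 : 0 ≤ b := ha.trans hab
  obtain ⟨η, hη0, hη1, hη2⟩ : ∃ η : ℝ, 0 < η ∧ η ≤ 1 ∧ η ≤ ε / 18 :=
    ⟨min 1 (ε / 18), lt_min one_pos (by positivity), min_le_left _ _, min_le_right _ _⟩
  have hsq : 0 < Real.sqrt Real.pi := Real.sqrt_pos.2 Real.pi_pos
  have hexp : Tendsto (fun L : ℝ => Real.exp (-((η * L) ^ 2 / 2)) * (8 * Real.exp 2 * K)) atTop
      (𝓝 0) := by
    have h1 : Tendsto (fun L : ℝ => (η * L) ^ 2 / 2) atTop atTop := by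
      apply Tendsto.atTop_div_const (by norm_num)
      exact (tendsto_pow_atTop (by norm_num)).comp (tendsto_id.const_mul_atTop hη0)
    have h2 := (Real.tendsto_exp_neg_atTop_nhds_zero.comp h1).mul_const (8 * Real.exp 2 * K)
    rw [zero_mul] at h2
    exact h2
  have hev1 := hexp.eventually (gt_mem_nhds (show (0 : ℝ) < Real.sqrt Real.pi * (ε / 2) by
    positivity))
  have hev2 := VV_diff c hc (a := a) (b := b) (η := η) hb0 hη0
  filter_upwards [hev1, hev2, eventually_ge_atTop 1] with L h1 h2 hL1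
  have hL0 : 0 < L := by linarith
  set lo := (a - η) * L with hlo
  set hi := (b + η) * L with hhi
  have hlohi : lo ≤ hi := by
    apply mul_le_mul_of_nonneg_right _ hL0.le
    linarith
  set NL := (Finset.Icc 1 ⌊Real.exp hi⌋₊).filter (fun n : ℕ => lo < Real.log n) with hNL
  have hle : a * L ≤ b * L := mul_le_mul_of_nonneg_right hab hL0.le
  -- pointwise bound
  have hpt : ∀ u ∈ Set.Icc (a * L) (b * L), W388.SWu c 1 u ≤
      (∑ n ∈ NL, ArithmeticFunction.vonMangoldt n ^ 2 * ‖c n‖ ^ 2 / n * Real.exp (-(1 * (u - Real.log n) ^ 2))) +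
        Real.exp (-((η * L) ^ 2 / 2)) * W388.SWu c (1 / 2) u := by
    intro u hu
    have hs1 := (swu_dom c hv (by norm_num : (0 : ℝ) < 1)).1 u
    have hs2 := (swu_dom c hv (by norm_num : (0 : ℝ) < 1 / 2)).1 u
    have hfin : HasSum (fun n : ℕ => if n ∈ NL then
        ArithmeticFunction.vonMangoldt n ^ 2 * ‖c n‖ ^ 2 / n * Real.exp (-(1 * (u - Real.log n) ^ 2)) else 0)
        (∑ n ∈ NL, ArithmeticFunction.vonMangoldt n ^ 2 * ‖c n‖ ^ 2 / n * Real.exp (-(1 * (u - Real.log n) ^ 2))) := by
      have h8 : HasSum (fun n : ℕ => if n ∈ NL then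
        ArithmeticFunction.vonMangoldt n ^ 2 * ‖c n‖ ^ 2 / n * Real.exp (-(1 * (u - Real.log n) ^ 2)) else 0)
        (∑ n ∈ NL, if n ∈ NL then
        ArithmeticFunction.vonMangoldt n ^ 2 * ‖c n‖ ^ 2 / n * Real.exp (-(1 * (u - Real.log n) ^ 2)) else 0) :=
        hasSum_sum_of_ne_finset_zero (fun n hn => if_neg hn)
      convert h8 using 1
      apply Finset.sum_congr rfl
      intro n hn
      rw [if_pos hn]
    have hR := hfin.add (hs2.hasSum.mul_left (Real.exp (-((η * L) ^ 2 / 2))))
    refine hasSum_le ?_ hs1.hasSum hR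
    intro n
    have hG2 := swu_nonneg_term c (1 / 2) n u
    by_cases hn : n ∈ NL
    · simp only [if_pos hn]
      have := mul_nonneg (Real.exp_pos (-((η * L) ^ 2 / 2))).le hG2
      linarith
    · simp only [if_neg hn, zero_add]
      rcases Nat.eq_zero_or_pos n with h0 | h0
      · subst h0
        simp
      · have hfar : (η * L) ^ 2 ≤ (u - Real.log n) ^ 2 := by
          have hn0 : (0 : ℝ) < n := by exact_mod_cast h0
          have hηL : 0 ≤ η * L := by positivity
          by_cases h3 : n ≤ ⌊Real.exp hi⌋₊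
          · have h4 : ¬ lo < Real.log n := by
              intro h5
              apply hn
              rw [hNL, Finset.mem_filter, Finset.mem_Icc]
              exact ⟨⟨h0, h3⟩, h5⟩
            rw [not_lt] at h4
            have h5 : η * L ≤ u - Real.log n := by
              have := hu.1
              have e : lo = a * L - η * L := by rw [hlo]; ring
              linarith
            exact pow_le_pow_left₀ hηL h5 2
          · have h4 : Real.exp hi < n := by
              rw [not_le] at h3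
              exact (Nat.floor_lt (Real.exp_pos _).le).1 h3
            have h5 : hi < Real.log n := (Real.lt_log_iff_exp_lt hn0).2 h4
            have h6 : η * L ≤ Real.log n - u := by
              have := hu.2
              have e : hi = b * L + η * L := by rw [hhi]; ring
              linarith
            have h7 := pow_le_pow_left₀ hηL h6 2
            calc (η * L) ^ 2 ≤ (Real.log n - u) ^ 2 := h7
              _ = (u - Real.log n) ^ 2 := by ring
        have hLam : 0 ≤ ArithmeticFunction.vonMangoldt n := ArithmeticFunction.vonMangoldt_nonneg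
        have h5 : Real.exp (-(1 * (u - Real.log n) ^ 2)) ≤
            Real.exp (-((η * L) ^ 2 / 2)) * Real.exp (-(1 / 2 * (u - Real.log n) ^ 2)) := by
          rw [← Real.exp_add]
          apply Real.exp_le_exp.2
          linarith
        calc _ ≤ ArithmeticFunction.vonMangoldt n ^ 2 * ‖c n‖ ^ 2 / n * (Real.exp (-((η * L) ^ 2 / 2)) *
            Real.exp (-(1 / 2 * (u - Real.log n) ^ 2))) := by gcongr
          _ = _ := by ring
  -- integrate
  have hcont1 : ∀ n : ℕ, Continuous fun u : ℝ =>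
      ArithmeticFunction.vonMangoldt n ^ 2 * ‖c n‖ ^ 2 / n * Real.exp (-(1 * (u - Real.log n) ^ 2)) := fun n => by fun_prop
  have hcS := (swu_dom c hv (by norm_num : (0 : ℝ) < 1 / 2)).2
  have hint : ∫ u in (a * L)..(b * L), W388.SWu c 1 u ≤
      (∑ n ∈ NL, ∫ u in (a * L)..(b * L),
        ArithmeticFunction.vonMangoldt n ^ 2 * ‖c n‖ ^ 2 / n * Real.exp (-(1 * (u - Real.log n) ^ 2))) +
        Real.exp (-((η * L) ^ 2 / 2)) * ∫ u in (a * L)..(b * L), W388.SWu c (1 / 2) u := by
    rw [← intervalIntegral.integral_const_mul, ← intervalIntegral.integral_finsetSum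
      (fun n _ => (hcont1 n).intervalIntegrable _ _), ← intervalIntegral.integral_add]
    · apply intervalIntegral.integral_mono_on hle
      · exact (swu_dom c hv (by norm_num : (0 : ℝ) < 1)).2.intervalIntegrable _ _
      · exact ((continuous_finsetSum _ fun n _ => hcont1 n).add
          (hcS.const_mul _)).intervalIntegrable _ _
      · exact hpt
    · exact (continuous_finsetSum _ fun n _ => hcont1 n).intervalIntegrable _ _
    · exact (hcS.const_mul _).intervalIntegrable _ _
  have hA : (∑ n ∈ NL, ∫ u in (a * L)..(b * L),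
        ArithmeticFunction.vonMangoldt n ^ 2 * ‖c n‖ ^ 2 / n * Real.exp (-(1 * (u - Real.log n) ^ 2))) ≤
      Real.sqrt Real.pi * hi * (VV c (Real.exp hi) - VV c (Real.exp lo)) := by
    rw [← VV_sub c hlohi, Finset.mul_sum]
    apply Finset.sum_le_sum
    intro n hn
    rw [hNL, Finset.mem_filter, Finset.mem_Icc] at hn
    have hn0 : (0 : ℝ) < n := by exact_mod_cast hn.1.1
    have h3 : Real.log n ≤ hi := by
      rw [Real.log_le_iff_le_exp hn0]
      exact (Nat.le_floor_iff (Real.exp_pos _).le).1 hn.1.2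
    have h4 : ArithmeticFunction.vonMangoldt n ≤ hi := ArithmeticFunction.vonMangoldt_le_log.trans h3
    have h5 : 0 ≤ ArithmeticFunction.vonMangoldt n := ArithmeticFunction.vonMangoldt_nonneg
    have h6 := vv_nonneg c n
    rw [intervalIntegral.integral_const_mul]
    calc ArithmeticFunction.vonMangoldt n ^ 2 * ‖c n‖ ^ 2 / n * ∫ u in (a * L)..(b * L), Real.exp (-(1 * (u - Real.log n) ^ 2))
        ≤ ArithmeticFunction.vonMangoldt n ^ 2 * ‖c n‖ ^ 2 / n * Real.sqrt Real.pi := by
          apply mul_le_mul_of_nonneg_left (gauss_int_le _ hle)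
          positivity
      _ = Real.sqrt Real.pi * (ArithmeticFunction.vonMangoldt n * vv c n) := by unfold vv; ring
      _ ≤ Real.sqrt Real.pi * (hi * vv c n) := by gcongr
      _ = _ := by ring
  have hB : ∫ u in (a * L)..(b * L), W388.SWu c (1 / 2) u ≤ 8 * Real.exp 2 * K * L ^ 2 := by
    have h3 : ∫ u in (a * L)..(b * L), W388.SWu c (1 / 2) u ≤
        ∫ u in (0 : ℝ)..L, W388.SWu c (1 / 2) u := by
      apply intervalIntegral.integral_mono_interval
      · positivity
      · exact hle
      · nlinarith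
      · exact Filter.Eventually.of_forall fun u => swu_nonneg c _ u
      · exact hcS.intervalIntegrable _ _
    have h4 := int_swu_half c hv hL0.le
    have hK0 : 0 ≤ K := by
      have h5 := hv.C_nonneg
      have h6 : 0 ≤ S0 := tsum_nonneg fun j => by positivity
      positivity
    calc _ ≤ 2 * Real.exp 2 * K * (L + 1) ^ 2 := h3.trans h4
      _ ≤ 2 * Real.exp 2 * K * (2 * L) ^ 2 := by
          gcongr
          linarith
      _ = _ := by ring
  have hE := (Real.exp_pos (-((η * L) ^ 2 / 2)))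
  have hhi0 : 0 ≤ hi := by positivity
  calc _ ≤ _ := hint
    _ ≤ Real.sqrt Real.pi * hi * ((b - a + 4 * η) * L) +
        Real.exp (-((η * L) ^ 2 / 2)) * (8 * Real.exp 2 * K * L ^ 2) := by
        apply add_le_add
        · exact hA.trans (mul_le_mul_of_nonneg_left h2 (by positivity))
        · exact mul_le_mul_of_nonneg_left hB hE.le
    _ = Real.sqrt Real.pi * L ^ 2 * ((b + η) * (b - a + 4 * η)) +
        (Real.exp (-((η * L) ^ 2 / 2)) * (8 * Real.exp 2 * K)) * L ^ 2 := by
        rw [hhi]; ring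
    _ ≤ Real.sqrt Real.pi * L ^ 2 * (b * (b - a) + ε / 2) +
        (Real.sqrt Real.pi * (ε / 2)) * L ^ 2 := by
        have h3 : (b + η) * (b - a + 4 * η) ≤ b * (b - a) + ε / 2 := by
          nlinarith
        gcongr
    _ = _ := by ring

lemma main_term (c : ℕ → ℂ) (hc : W388.SelE c) (γ : ℝ) (h0 : 0 < γ) (hπ : γ < Real.pi) (ε : ℝ)
    (hε : 0 < ε) : ∃ L0 : ℝ, 0 < L0 ∧ ∀ L : ℝ, L0 ≤ L →
    ∫ u in (0 : ℝ)..L, Rw γ (u / L) * W388.SWu c 1 u ≤
      Real.sqrt Real.pi * L ^ 2 * ((∫ α in (0 : ℝ)..1, α * Rw γ α) + ε) := by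
  obtain ⟨C, hv⟩ := wt_of c hc
  obtain ⟨KR, hKR, hlip⟩ := H385.Rw_lip γ h0 hπ
  have hcR : Continuous (Rw γ) := by
    have : LipschitzWith (Real.toNNReal KR) (Rw γ) := by
      apply LipschitzWith.of_dist_le_mul
      intro x y
      rw [Real.dist_eq, Real.dist_eq, Real.coe_toNNReal _ hKR.le]
      exact hlip x y
    exact this.continuous
  have hRn := H385.Rw_nonneg γ h0 hπ
  have hanti := H385.Rw_antitone γ h0 hπ
  set R0 := Rw γ 0 with hR0
  have hR00 : 0 ≤ R0 := hRn 0
  obtain ⟨m, hm⟩ := exists_nat_gt ((KR + R0) / (ε / 2) + 1)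
  have hm0 : (0 : ℝ) < m := by
    have : 0 ≤ (KR + R0) / (ε / 2) := by positivity
    linarith
  have hm1 : (KR + R0) / m ≤ ε / 2 := by
    rw [div_le_iff₀ hm0]
    have h1 : (KR + R0) / (ε / 2) ≤ m := by linarith
    rw [div_le_iff₀ (by positivity)] at h1
    linarith
  set ε' := ε / (2 * m * (R0 + 1)) with hε'
  have hε'0 : 0 < ε' := by positivity
  have hev : ∀ᶠ L : ℝ in atTop, ∀ i ∈ Finset.range m,
      ∫ u in ((i : ℝ) / m * L)..(((i + 1 : ℕ) : ℝ) / m * L), W388.SWu c 1 u ≤
      Real.sqrt Real.pi * L ^ 2 *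
        ((((i + 1 : ℕ) : ℝ) / m) * ((((i + 1 : ℕ) : ℝ) / m) - (i : ℝ) / m) + ε') := by
    rw [Filter.eventually_all_finset]
    intro i hi
    rw [Finset.mem_range] at hi
    apply block c hc (by positivity) _ _ hε'0
    · gcongr
      linarith
    · rw [div_le_one hm0]
      exact_mod_cast hi
  obtain ⟨L0, hL0⟩ := (hev.and (eventually_gt_atTop 0)).exists_forall_of_atTop
  refine ⟨max L0 1, by positivity, ?_⟩
  intro L hL
  obtain ⟨hbl, hLpos⟩ := hL0 L ((le_max_left _ _).trans hL)
  have hcS := (swu_dom c hv (by norm_num : (0 : ℝ) < 1)).2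
  have hcf : Continuous fun u : ℝ => Rw γ (u / L) * W388.SWu c 1 u :=
    (hcR.comp (continuous_id.div_const L)).mul hcS
  have hcg : Continuous fun α : ℝ => α * Rw γ α := continuous_id.mul hcR
  have hsplit1 : ∫ u in (0 : ℝ)..L, Rw γ (u / L) * W388.SWu c 1 u =
      ∑ i ∈ Finset.range m, ∫ u in ((i : ℝ) / m * L)..(((i + 1 : ℕ) : ℝ) / m * L),
        Rw γ (u / L) * W388.SWu c 1 u := by
    have := intervalIntegral.sum_integral_adjacent_intervals (a := fun i : ℕ => (i : ℝ) / m * L)
      (n := m) (f := fun u : ℝ => Rw γ (u / L) * W388.SWu c 1 u) (μ := volume)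
      (fun i _ => hcf.intervalIntegrable _ _)
    rw [this]
    congr 1
    · simp
    · rw [div_self hm0.ne', one_mul]
  have hsplit2 : ∫ α in (0 : ℝ)..1, α * Rw γ α =
      ∑ i ∈ Finset.range m, ∫ α in ((i : ℝ) / m)..(((i + 1 : ℕ) : ℝ) / m), α * Rw γ α := by
    have := intervalIntegral.sum_integral_adjacent_intervals (a := fun i : ℕ => (i : ℝ) / m)
      (n := m) (f := fun α : ℝ => α * Rw γ α) (μ := volume)
      (fun i _ => hcg.intervalIntegrable _ _)
    rw [this]
    congr 1
    · simp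
    · rw [div_self hm0.ne']
  rw [hsplit1, hsplit2]
  have hterm : ∀ i ∈ Finset.range m, ∫ u in ((i : ℝ) / m * L)..(((i + 1 : ℕ) : ℝ) / m * L),
        Rw γ (u / L) * W388.SWu c 1 u ≤ Real.sqrt Real.pi * L ^ 2 *
        ((∫ α in ((i : ℝ) / m)..(((i + 1 : ℕ) : ℝ) / m), α * Rw γ α) + ε / m) := by
    intro i hi
    have hb := hbl i hi
    rw [Finset.mem_range] at hi
    set x := (i : ℝ) / m with hx
    set y := ((i + 1 : ℕ) : ℝ) / m with hy
    have hyx : y = x + 1 / m := by
      rw [hx, hy]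
      push_cast
      ring
    have hx0 : 0 ≤ x := by positivity
    have h1m : 0 < 1 / (m : ℝ) := by positivity
    have hxy : x ≤ y := by linarith
    have hy1 : y ≤ 1 := by
      rw [hy, div_le_one hm0]
      exact_mod_cast hi
    have hx1 : x ≤ 1 := hxy.trans hy1
    have hxyL : x * L ≤ y * L := mul_le_mul_of_nonneg_right hxy hLpos.le
    -- upper bound
    have hup : ∫ u in (x * L)..(y * L), Rw γ (u / L) * W388.SWu c 1 u ≤
        Rw γ x * ∫ u in (x * L)..(y * L), W388.SWu c 1 u := by
      rw [← intervalIntegral.integral_const_mul]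
      apply intervalIntegral.integral_mono_on hxyL (hcf.intervalIntegrable _ _)
        ((hcS.const_mul _).intervalIntegrable _ _)
      intro u hu
      apply mul_le_mul_of_nonneg_right _ (swu_nonneg c 1 u)
      have h1 : x ≤ u / L := by
        rw [le_div_iff₀ hLpos]
        exact hu.1
      exact hanti (Set.mem_Ici.2 hx0) (Set.mem_Ici.2 (hx0.trans h1)) h1
    -- lower bound
    have hlow : 1 / m * (x * Rw γ y) ≤ ∫ α in x..y, α * Rw γ α := by
      calc 1 / m * (x * Rw γ y) = ∫ _α in x..y, x * Rw γ y := by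
            rw [intervalIntegral.integral_const, smul_eq_mul]
            congr 1
            rw [hyx]
            ring
        _ ≤ _ := by
            apply intervalIntegral.integral_mono_on hxy
              (continuous_const.intervalIntegrable _ _) (hcg.intervalIntegrable _ _)
            intro α hα
            apply mul_le_mul hα.1 _ (hRn y) (hx0.trans hα.1)
            exact hanti (Set.mem_Ici.2 (hx0.trans hα.1)) (Set.mem_Ici.2 (hx0.trans hxy)) hα.2
    have hRx : Rw γ x ≤ R0 := hanti (Set.mem_Ici.2 le_rfl) (Set.mem_Ici.2 hx0) hx0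
    have hRxy : Rw γ x ≤ Rw γ y + KR * (1 / m) := by
      have h1 := hlip x y
      have h2 : |x - y| = 1 / m := by
        rw [hyx]
        rw [show x - (x + 1 / m) = -(1 / (m : ℝ)) by ring, abs_neg, abs_of_pos h1m]
      rw [h2] at h1
      have h3 := le_abs_self (Rw γ x - Rw γ y)
      linarith
    have hsq : 0 ≤ Real.sqrt Real.pi * L ^ 2 := by positivity
    have hRx0 := hRn x
    have hfinal : Rw γ x * (y * (y - x) + ε') ≤ 1 / m * (x * Rw γ y) + ε / m := by
      have e1 : y * (y - x) = 1 / m * x + 1 / m * (1 / m) := by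
        rw [hyx]; ring
      rw [e1]
      have e2 : Rw γ x * ε' ≤ (ε / 2) * (1 / m) := by
        calc Rw γ x * ε' ≤ (R0 + 1) * ε' := by
              apply mul_le_mul_of_nonneg_right _ hε'0.le
              linarith
          _ = (ε / 2) * (1 / m) := by
              rw [hε']
              field_simp
      have e3 : Rw γ x * (1 / m * x) ≤ (Rw γ y + KR * (1 / m)) * (1 / m * x) :=
        mul_le_mul_of_nonneg_right hRxy (by positivity)
      have e4 : KR * (1 / m) * (1 / m * x) ≤ KR * (1 / m) * (1 / m) := by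
        have : 1 / (m : ℝ) * x ≤ 1 / m := by nlinarith
        gcongr
      have e5 : Rw γ x * (1 / m * (1 / m)) ≤ R0 * (1 / m * (1 / m)) := by gcongr
      have e6 : (KR + R0) * (1 / m) * (1 / m) ≤ (ε / 2) * (1 / m) := by
        apply mul_le_mul_of_nonneg_right _ h1m.le
        rw [mul_one_div]
        exact hm1
      have e7 : ε / m = (ε / 2) * (1 / m) + (ε / 2) * (1 / m) := by ring
      rw [e7]
      nlinarith
    calc _ ≤ _ := hup
      _ ≤ Rw γ x * (Real.sqrt Real.pi * L ^ 2 * (y * (y - x) + ε')) :=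
          mul_le_mul_of_nonneg_left hb hRx0
      _ = Real.sqrt Real.pi * L ^ 2 * (Rw γ x * (y * (y - x) + ε')) := by ring
      _ ≤ Real.sqrt Real.pi * L ^ 2 * (1 / m * (x * Rw γ y) + ε / m) :=
          mul_le_mul_of_nonneg_left hfinal hsq
      _ ≤ _ := by
          apply mul_le_mul_of_nonneg_left _ hsq
          linarith
  calc _ ≤ _ := Finset.sum_le_sum hterm
    _ = _ := by
        rw [← Finset.mul_sum, Finset.sum_add_distrib, Finset.sum_const, Finset.card_range,
          nsmul_eq_mul]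
        congr 2
        field_simp

/-- the real analysis part of the mean square -/
theorem t_smooth : W388.StSmooth := by
  intro c hc
  obtain ⟨C, hv⟩ := wt_of c hc
  have hK0 : 0 ≤ C * S0 := by
    have h5 := hv.C_nonneg
    have h6 : 0 ≤ S0 := tsum_nonneg fun j => by positivity
    positivity
  have he : Real.exp 1 ≤ Real.exp 2 := Real.exp_le_exp.2 (by norm_num)
  have he1 := Real.exp_pos 1
  refine ⟨(wu_dom c hv).1, fun b hb => (swu_dom c hv hb).1, (wu_dom c hv).2,
    fun b hb => (swu_dom c hv hb).2, ?_, fun γ h0 hπ ε hε => main_term c hc γ h0 hπ ε hε⟩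
  refine ⟨2 * Real.exp 2 * (C * S0) + 1, by positivity, ?_, ?_, ?_, ?_⟩
  · intro u hu
    calc W388.Wu c u ≤ Real.exp 1 * EE (vv c) u := wu_le c hv u
      _ ≤ Real.exp 1 * (C * S0 * (u + 1)) := by
          apply mul_le_mul_of_nonneg_left (EE_le hv hu) he1.le
      _ ≤ Real.exp 2 * (C * S0 * (u + 1)) := by gcongr
      _ ≤ _ := by
          have : 0 ≤ Real.exp 2 * (C * S0) * (u + 1) := by positivity
          nlinarith
  · intro L hL
    calc ∫ u in (0 : ℝ)..L, W388.Wu c u ≤ ∫ u in (0 : ℝ)..L, Real.exp 1 * EE (vv c) u := by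
          apply intervalIntegral.integral_mono_on hL
          · exact (wu_dom c hv).2.intervalIntegrable _ _
          · exact ((EE_dom hv).2.const_mul _).intervalIntegrable _ _
          · intro u _
            exact wu_le c hv u
      _ = Real.exp 1 * ∫ u in (0 : ℝ)..L, EE (vv c) u := intervalIntegral.integral_const_mul _ _
      _ ≤ Real.exp 1 * (2 * (C * S0 * (L + 1))) :=
          mul_le_mul_of_nonneg_left (int_EE_le hv hL) he1.le
      _ ≤ Real.exp 2 * (2 * (C * S0 * (L + 1))) := by gcongr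
      _ ≤ _ := by nlinarith
  · intro u hu
    have h1 := swu_le c hv (by norm_num : (0 : ℝ) < 1 / 2) (le_refl u) hu
    norm_num at h1
    calc W388.SWu c (1 / 2) u ≤ Real.exp 2 * (u + 1) * EE (vv c) u := by
          norm_num
          exact h1
      _ ≤ Real.exp 2 * (u + 1) * (C * S0 * (u + 1)) := by
          apply mul_le_mul_of_nonneg_left (EE_le hv hu) (by positivity)
      _ = Real.exp 2 * (C * S0) * (u + 1) ^ 2 := by ring
      _ ≤ _ := by
          apply mul_le_mul_of_nonneg_right _ (by positivity)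
          have : 0 ≤ Real.exp 2 * (C * S0) := by positivity
          linarith
  · intro L hL
    refine (int_swu_half c hv hL).trans ?_
    apply mul_le_mul_of_nonneg_right _ (by positivity)
    linarith

end Pool.Agent.W261.TW
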